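import Pool.Agent.H.MP_e23cd6_ag.KX.One
import Pool.Agent.H.MP_e23cd6_ag.KX.Two
import Pool.Agent.H.MP_e23cd6_ag.KX.Three
import Pool.Agent.H.MP_e23cd6_ag.KX.Pt

/-!
# Klt pairs on the total spaces of fibre bundles with a reductive structure group
-/

set_option autoImplicit false

open MeasureTheory Pool.Agent.PG Pool.Agent.KX

namespace Pool.Agent.Results.MP_e23cd6_ag.KltBundlePairs

/-- Let `F` be an irreducible normal compact complex space with an action of the complex reductive group
`G`, and `N` a linearised line bundle on `F` generated by the `G`-stable space `ℂ^κ` of sections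
(`Φ : Fib`). There are `M, d ≥ 1` such that the following holds for all compact normal complex spaces
`Z` (connected, say) such that `C = m K_Z` is a line bundle (transition functions `c`), all holomorphic
fibre bundles `X → Z` with fibre `F` and structure group `G`, all line bundles `A` on `Z` (transition
functions `a`), and all sections `s` of `L ⊗ K_{X/Z} ^ (-m)`, `L = N ⊗ A`, fibrewise in the `G`-stable space
`ℂ^ι` of sections of `N ⊗ K_F ^ (-m)`. Let `D = (1/m) div s`, so that `m (K_X + D) = L' := L ⊗ C`, let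
`λ` be the determinant of the bundle of the sections in `ℂ^κ` of `L` on the fibres (`Bun.lam`), and
`λ' = λ ⊗ C ^ κ` the same determinant for `L'`. Assume that the pair `(X, D)` is klt (the fibres
`(F, D_z)` over special points `z` need not be lc). Then:

(1) `λ ^ M` has a section `t` such that the pair `(Z, E)`, `E = (1 / (κ m M)) div t`, is klt; here
`κ m (K_Z + E)` is `ℚ`-linearly equivalent to `λ'`.

(2) If `L'` is nef, then `λ'` is nef, and if `L'` is semiample, then `λ'` is semiample.

(3) Let `λ'` be semiample and let `k` be a section of `λ' ^ l ⊗ C ^ p`, `d l < p`, which is not zero at `z`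
(that is, `K_Z + θ E` is `ℚ`-linearly equivalent to an effective divisor, where
`θ = l κ / (l κ + p) < κ / (κ + d)`; for `l = 0` this is the condition that a power of `K_Z` has a section).
Then there are points `z'` such that `(F, D_z')` is klt and `k z' ≠ 0`, and if `(F, D_z)` is klt, then
`L'` is abundant, and generated over `z`. -/
theorem result {n : ℕ} (R : RG n) (EF : Type) [NormedAddCommGroup EF] [NormedSpace ℂ EF]
    [FiniteDimensional ℂ EF] [MeasureSpace EF] [BorelSpace EF]
    [(volume : Measure EF).IsAddHaarMeasure] (F : Type) [TopologicalSpace F] [CompactSpace F]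
    (κ ι : Type) [Fintype κ] [DecidableEq κ] [Fintype ι] [DecidableEq ι] (m : ℕ) (hm : 1 ≤ m)
    (Φ : Fib R EF F κ ι m) (hσ : SND Φ) :
    ∃ M d : ℕ, 1 ≤ M ∧ 1 ≤ d ∧
    ∀ (EZ : Type) [NormedAddCommGroup EZ] [NormedSpace ℂ EZ] [FiniteDimensional ℂ EZ]
      [MeasureSpace EZ] [BorelSpace EZ] [(volume : Measure EZ).IsAddHaarMeasure]
      (Z : Type) [TopologicalSpace Z] [CompactSpace Z] [T2Space Z] [Nonempty Z]
      (O : ZSp EZ Z) (I : Type) (X : Bun Φ O.toCSp I) (a c : I → I → Z → ℂ) (C : Can X m c)
      (s : SecS X a), KltX C s →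
      (∃ t : SecZ X (fun i j z => X.lam a i j z ^ M),
        KltZ C t (2 / (m * Fintype.card κ * M))) ∧
      (NefX X (fun i j z => a i j z * c i j z) → NefZ X (lam' X a c)) ∧
      (SemiX X (fun i j z => a i j z * c i j z) → SemiZ X (lam' X a c)) ∧
      (SemiZ X (lam' X a c) → ∀ l p : ℕ, d * l < p →
        ∀ k : SecZ X (fun i j z => lam' X a c i j z ^ l * c i j z ^ p),
        ∀ i, ∀ z ∈ X.U i, k.f i z ≠ 0 →
          (∃ i', ∃ z' ∈ X.U i', k.f i' z' ≠ 0 ∧ Φ.Klt (s.S i' z')) ∧
          (Φ.Klt (s.S i z) → AbunAt X (fun i j z => a i j z * c i j z) z)) := by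
  obtain ⟨M, hM, h1⟩ := part_one Φ hm
  obtain ⟨d, hd, h3⟩ := part_three Φ hσ hm
  refine ⟨M, d, hM, hd, fun EZ _ _ _ _ _ _ Z _ _ _ _ O I X a c C s hs => ⟨h1 X C s hs,
    part_two X a c, semi_two X a c, ?_⟩⟩
  intro hS l p hlp k i z hz hk
  refine ⟨?_, fun hK => h3 X s hS hlp k hz hk hK⟩
  obtain ⟨i', z', hz', hk', hK⟩ := klt_pt hm X C s hs k hz hk
  exact ⟨i', z', hz', hk', hK⟩

end Pool.Agent.Results.MP_e23cd6_ag.KltBundlePairs
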