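import Pool.Agent.H.MP_e23cd6_ag.NT.Final

/-!
MP_e23cd6_ag: abundance for klt pairs on a normal projective variety with a torus action, and
abundance for klt pairs on its geometric quotients.
-/

namespace Pool.Agent.Results.MP_e23cd6_ag.NormalTorusActions

open scoped Manifold ContDiff
open MeasureTheory Pool.Agent.Abd Pool.Agent.Abn

/-- Let the torus `T = (ℂ^*)^r` act holomorphically on the connected compact normal complex space `X`
(with the regular part `X₀ ⊆ X`; some point of `X₀` having a finite stabiliser), let `P` be an ample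
and `L` a nef line bundle on `X`, with linearisations. Let `(X, Δ)` be klt with `Δ = (1/m) div s` any
effective `ℚ`-divisor (not necessarily `T`-invariant) with `m (K_X + Δ)` linearly equivalent to `k L`.
Then `K_X + Δ` is semiample if and only if for every geometric quotient `Y = U / T` (a compact normal
complex space of dimension `dim X - r`; `U` is an open subset of `X` on which `T` acts properly and
cocompactly) and every klt pair `(Y, N)`, with `N` containing the branch divisor of `U → Y`, such
that `m' (K_Y + N)` is `ℚ`-linearly equivalent to `k'` times the line bundle on `Y` given by `L ^ K`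
and a character `χ` of `T`, with this line bundle nef (by means of sections over `X`), this line
bundle is semiample. In particular abundance for projective klt pairs of dimension `dim X - r` gives
abundance for `(X, Δ)`. -/
theorem result (E : Type) [NormedAddCommGroup E] [NormedSpace ℂ E] [FiniteDimensional ℂ E]
    [MeasureSpace E] [BorelSpace E] [(volume : Measure E).IsAddHaarMeasure] (r : ℕ) (X₀ X : Type)
    [TopologicalSpace X₀] [ChartedSpace E X₀] [IsManifold 𝓘(ℂ, E) ω X₀]
    [SecondCountableTopology X₀] [TopologicalSpace X] [T2Space X] [CompactSpace X]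
    [ConnectedSpace X] (N : NSp E X₀ X) (A : NAct r N)
    (hA : ∃ y : X₀, {a : Fin r → ℂ | InT a ∧ A.reg.act a y = y}.Finite) (L P : NLine N)
    (ΛL : NLin A L) (ΛP : NLin A P) (hP : AmpleX L P) (hL : NefX L P) (k m : ℕ) (hk : 1 ≤ k)
    (hm : 1 ≤ m) (s : Sec2 L.reg P.reg k 0 m (N.inc ⁻¹' Set.univ)) (hs : NKlt s) :
    SemiX L P 1 0 ↔ ∀ (U : Set X) (K : ℕ) (χ : Fin r → ℤ) (k' m' : ℕ), NGood A Finset.univ U →
      1 ≤ K → 1 ≤ k' → 1 ≤ m' → NNefG ΛL ΛP Finset.univ U K χ →
        NKltQ ΛL ΛP Finset.univ U K χ k' m' → NSemiQ ΛL ΛP Finset.univ U K 0 χ :=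
  gn_main ΛL ΛP hA hP hL hk hm s hs

end Pool.Agent.Results.MP_e23cd6_ag.NormalTorusActions
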