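import Pool.Agent.H.MP_e23cd6_ag.SG.Main

/-!
MP_e23cd6_ag: abundance for klt pairs on a normal projective variety with an action of `SL_n(ℂ)`, and
abundance for klt pairs on its geometric quotients by the group of the upper triangular matrices.
-/

namespace Pool.Agent.Results.MP_e23cd6_ag.SemisimpleActions

open scoped Manifold ContDiff
open MeasureTheory Pool.Agent.Abd Pool.Agent.Abn Pool.Agent.SG

/-- Let the group `G = SL_n(ℂ)`, `n ≥ 2`, act holomorphically on the connected compact normal complex
space `X` (with the regular part `X₀ ⊆ X`), such that some point of `X₀` has a finite stabiliser in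
the group `B` of the upper triangular matrices. Let `P` be an ample and `L` a nef line bundle on `X`,
with linearisations. Let `(X, Δ)` be klt with `Δ = (1/m) div s` any effective `ℚ`-divisor (not
necessarily `G`-invariant) with `m (K_X + Δ)` linearly equivalent to `k L`.

Suppose that for every geometric quotient `Y = U / B` (a compact normal complex space of dimension
`dim X - dim B`, `dim B = (n - 1) (n + 2) / 2`; `U` is a connected open subset of `X` on which `B`
acts properly and cocompactly) and every klt pair `(Y, N)`, with `N` containing the branch divisor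
of `U → Y`, such that `m' (K_Y + N)` is `ℚ`-linearly equivalent to `k'` times the line bundle on `Y`
given by `L ^ K` and a character `χ` of `B`, with this line bundle nef (by means of sections over
`X`), this line bundle is semiample. Then `K_X + Δ` is semiample.

In particular abundance for projective klt pairs of dimension `dim X - dim B` gives abundance for
`(X, Δ)`. -/
theorem result (E : Type) [NormedAddCommGroup E] [NormedSpace ℂ E] [FiniteDimensional ℂ E]
    [MeasureSpace E] [BorelSpace E] [(volume : Measure E).IsAddHaarMeasure] (n : ℕ) (hn : 2 ≤ n)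
    (X₀ X : Type) [TopologicalSpace X₀] [ChartedSpace E X₀] [IsManifold 𝓘(ℂ, E) ω X₀]
    [SecondCountableTopology X₀] [TopologicalSpace X] [T2Space X] [CompactSpace X]
    [ConnectedSpace X] (N : NSp E X₀ X) (A : GAct n N)
    (hA : ∃ y : X₀, {b : Gp n | IsB b ∧ A.reg b y = y}.Finite) (L P : NLine N)
    (ΛL : GLin A L) (ΛP : GLin A P) (hP : Ample1 L P) (hL : NefX L P) (k m : ℕ) (hk : 1 ≤ k)
    (hm : 1 ≤ m) (s : Sec2 L.reg P.reg k 0 m (N.inc ⁻¹' Set.univ)) (hs : KltX s)
    (hQ : ∀ (U : Set X) (K : ℕ) (χ : Fin n → ℤ) (k' m' : ℕ), BGood A U → 1 ≤ K → 1 ≤ k' →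
      1 ≤ m' → BNefG ΛL ΛP U K χ → BKltQ ΛL ΛP U K χ k' m' → BSemiQ ΛL ΛP U K 0 χ) :
    SemiX L P 1 0 :=
  sg_main hn hA ΛL ΛP hP hL hk hm s hs hQ

end Pool.Agent.Results.MP_e23cd6_ag.SemisimpleActions
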